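import Pool.Agent.H809Z.Ball.Defs
import Pool.Agent.Helper853.Bk.Scv

open scoped Topology ENNReal InnerProductSpace
open Filter Metric Set MeasureTheory

namespace Pool.Agent.H809Z.Ball

namespace Ibp

noncomputable def T (s : ℝ) : ℝ := s * Real.smoothTransition (-s - 1)

lemma T_c1 : ContDiff ℝ 1 T := by
  unfold T
  exact contDiff_id.mul (Real.smoothTransition.contDiff.comp (by fun_prop))

lemma T_zero {s : ℝ} (h : -1 ≤ s) : T s = 0 := by
  unfold T
  rw [Real.smoothTransition.zero_of_nonpos (by linarith), mul_zero]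

lemma T_one {s : ℝ} (h : s ≤ -2) : T s = s := by
  unfold T
  rw [Real.smoothTransition.one_of_one_le (by linarith), mul_one]

lemma T_abs (s : ℝ) : |T s| ≤ |s| := by
  unfold T
  rw [abs_mul, abs_of_nonneg (Real.smoothTransition.nonneg _)]
  exact mul_le_of_le_one_right (abs_nonneg _) (Real.smoothTransition.le_one _)

lemma dT_one {s : ℝ} (h : s < -2) : deriv T s = 1 := by
  have : T =ᶠ[𝓝 s] id := by
    filter_upwards [Iio_mem_nhds h] with t ht
    exact T_one (le_of_lt ht)
  rw [this.deriv_eq, deriv_id]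

lemma dT_zero {s : ℝ} (h : -1 < s) : deriv T s = 0 := by
  have : T =ᶠ[𝓝 s] fun _ => 0 := by
    filter_upwards [Ioi_mem_nhds h] with t ht
    exact T_zero (le_of_lt ht)
  rw [this.deriv_eq, deriv_const]

lemma dT_bdd : ∃ B : ℝ, 0 ≤ B ∧ ∀ s, |deriv T s| ≤ B := by
  obtain ⟨B, hB⟩ := (isCompact_Icc (a := (-2 : ℝ)) (b := -1)).exists_bound_of_continuousOn
    (T_c1.continuous_deriv le_rfl).continuousOn
  refine ⟨|B| + 1, by positivity, fun s => ?_⟩
  rcases lt_or_ge s (-2) with h | h
  · rw [dT_one h, abs_one]; linarith [abs_nonneg B]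
  rcases lt_or_ge (-1) s with h' | h'
  · rw [dT_zero h', abs_zero]; positivity
  · have := hB s ⟨h, h'⟩
    rw [Real.norm_eq_abs] at this
    linarith [le_abs_self B]

variable {n : ℕ}

lemma int_fderiv {u : En n → ℂ} (hu : ContDiff ℝ 1 u) (hc : HasCompactSupport u) (w : En n) :
    Integrable (fun z => fderiv ℝ u z w) ∧ ∫ z, fderiv ℝ u z w = 0 := by
  have h1 : Continuous fun z => fderiv ℝ u z w :=
    (hu.continuous_fderiv (by simp)).clm_apply continuous_const
  have h2 : Integrable (fun z => fderiv ℝ u z w) :=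
    h1.integrable_of_hasCompactSupport (hc.fderiv_apply ℝ w)
  refine ⟨h2, ?_⟩
  have := integral_mul_fderiv_eq_neg_fderiv_mul_of_integrable (μ := (volume : Measure (En n)))
    (f := fun _ => (1 : ℂ)) (g := u) (v := w) (by simp) (by simpa using h2)
    (by simpa using hu.continuous.integrable_of_hasCompactSupport hc)
    (fun _ _ => differentiableAt_const _) (fun x _ => hu.differentiable (by simp) x)
  simpa using this

lemma int_dz {u : En n → ℂ} (hu : ContDiff ℝ 1 u) (hc : HasCompactSupport u) (v : En n) :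
    ∫ z, dz u z v = 0 := by
  obtain ⟨a1, a2⟩ := int_fderiv hu hc v
  obtain ⟨b1, b2⟩ := int_fderiv hu hc (Complex.I • v)
  unfold dz
  rw [integral_div, integral_sub a1 (b1.const_mul _), integral_const_mul, a2, b2]
  simp

lemma dz_contAt {u : En n → ℂ} {z : En n} (hu : ContDiffAt ℝ 1 u z) (v : En n) :
    ContinuousAt (fun z => dz u z v) z := by
  have h1 : ContinuousAt (fderiv ℝ u) z := (hu.fderiv_right (m := 0) (by simp)).continuousAt
  unfold dz
  exact ((h1.clm_apply continuousAt_const).sub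
    (continuousAt_const.mul (h1.clm_apply continuousAt_const))).div_const 2

noncomputable def U (ρ : En n → ℝ) (g h : En n → ℂ) (ε : ℝ) (y : En n) : ℂ :=
  ((ε * T (ρ y / ε) : ℝ) : ℂ) * g y * (starRingEnd ℂ) (h y)

lemma U_zero {ρ : En n → ℝ} (hρ : Continuous ρ) (g h : En n → ℂ) {ε : ℝ} (hε : 0 < ε) {z : En n}
    (hz : -ε < ρ z) : U ρ g h ε =ᶠ[𝓝 z] fun _ => 0 := by
  filter_upwards [hρ.continuousAt.eventually (Ioi_mem_nhds hz)] with y hy
  have : -1 ≤ ρ y / ε := by
    rw [le_div_iff₀ hε]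
    have : -ε < ρ y := hy
    linarith
  simp [U, T_zero this]

lemma dz_U {ρ : En n → ℝ} {g h : En n → ℂ} {ε : ℝ} (hε : 0 < ε) {z : En n}
    (hρ : DifferentiableAt ℝ ρ z) (hg : DifferentiableAt ℝ g z) (hh : DifferentiableAt ℂ h z)
    (v : En n) :
    dz (U ρ g h ε) z v = (((deriv T (ρ z / ε) : ℝ) : ℂ) * (dz (fun y => (ρ y : ℂ)) z v * g z) +
      ((ε * T (ρ z / ε) : ℝ) : ℂ) * dz g z v) * (starRingEnd ℂ) (h z) := by
  have t1 : HasDerivAt (fun t : ℝ => ε * T (t / ε)) (deriv T (ρ z / ε)) (ρ z) := by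
    have a := (T_c1.differentiable (by simp) (ρ z / ε)).hasDerivAt
    have b := (a.comp (ρ z) ((hasDerivAt_id (ρ z)).div_const ε)).const_mul ε
    have e : ε * (deriv T (ρ z / ε) * (1 / ε)) = deriv T (ρ z / ε) := by field_simp
    rw [e] at b
    exact b
  have a1 := Complex.ofRealCLM.hasFDerivAt.comp z (t1.comp_hasFDerivAt z hρ.hasFDerivAt)
  have a2 := Complex.conjCLE.toContinuousLinearMap.hasFDerivAt.comp z
    (hh.hasFDerivAt.restrictScalars ℝ)
  have a3 := ((a1.mul hg.hasFDerivAt).mul a2).fderiv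
  have a4 := (Complex.ofRealCLM.hasFDerivAt.comp z hρ.hasFDerivAt).fderiv
  have e3 : fderiv ℝ (U ρ g h ε) z = _ := a3
  have e4 : fderiv ℝ (fun y => (ρ y : ℂ)) z = _ := a4
  unfold dz
  rw [e3, e4]
  simp
  linear_combination ((ε : ℂ) * (T (ρ z / ε) : ℂ) * g z *
    (starRingEnd ℂ) (fderiv ℂ h z v) / 2) * Complex.I_mul_I

end Ibp

open Ibp in
theorem ibp (n : ℕ) : IBP n := by
  intro ρ g h v hρ hb hg hh hi
  set Ω : Set (En n) := {z | ρ z < 0} with hΩ
  have hΩo : IsOpen Ω := isOpen_lt hρ.continuous continuous_const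
  have hK : IsCompact (closure Ω) := hb.isCompact_closure
  have hh1 : ∀ z ∈ Ω, ContDiffAt ℝ 1 h z := fun z hz =>
    ((((Pool.Agent.Helper853.Bk.contDiffOn_of_differentiableOn hΩo hh).contDiffAt
      (hΩo.mem_nhds hz)).of_le (by simp)).restrict_scalars ℝ)
  have hρc : ContDiff ℝ 1 (fun y => (ρ y : ℂ)) := Complex.ofRealCLM.contDiff.comp hρ
  have hU1 : ∀ ε > 0, ContDiff ℝ 1 (U ρ g h ε) := by
    intro ε hε
    rw [contDiff_iff_contDiffAt]
    intro z
    by_cases hz : z ∈ Ω
    · have a1 : ContDiff ℝ 1 (fun y => ((ε * T (ρ y / ε) : ℝ) : ℂ)) :=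
        Complex.ofRealCLM.contDiff.comp (contDiff_const.mul (T_c1.comp (hρ.div_const ε)))
      have a2 : ContDiffAt ℝ 1 (fun y => (starRingEnd ℂ) (h y)) z :=
        Complex.conjCLE.contDiff.contDiffAt.comp z (hh1 z hz)
      exact (a1.contDiffAt.mul (hg z (subset_closure hz))).mul a2
    · have : -ε < ρ z := by
        have : ¬ ρ z < 0 := hz
        linarith
      exact contDiffAt_const.congr_of_eventuallyEq (U_zero hρ.continuous g h hε this)
  have hout : ∀ ε > 0, ∀ z, z ∉ Ω → U ρ g h ε =ᶠ[𝓝 z] fun _ => 0 := by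
    intro ε hε z hz
    refine U_zero hρ.continuous g h hε ?_
    have : ¬ ρ z < 0 := hz
    linarith
  have hUc : ∀ ε > 0, HasCompactSupport (U ρ g h ε) := fun ε hε =>
    HasCompactSupport.intro hK fun z hz =>
      (hout ε hε z fun h' => hz (subset_closure h')).self_of_nhds
  have hint : ∀ ε > 0, ∫ z in Ω, dz (U ρ g h ε) z v = 0 := by
    intro ε hε
    rw [setIntegral_eq_integral_of_forall_compl_eq_zero, int_dz (hU1 ε hε) (hUc ε hε)]
    intro z hz
    unfold dz
    rw [(hout ε hε z hz).fderiv_eq]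
    simp
  have hform : ∀ ε > 0, ∀ z ∈ Ω, dz (U ρ g h ε) z v =
      (((deriv T (ρ z / ε) : ℝ) : ℂ) * (dz (fun y => (ρ y : ℂ)) z v * g z) +
      ((ε * T (ρ z / ε) : ℝ) : ℂ) * dz g z v) * (starRingEnd ℂ) (h z) := fun ε hε z hz =>
    dz_U hε (hρ.differentiable (by simp) z) ((hg z (subset_closure hz)).differentiableAt (by simp))
      (hh.differentiableAt (hΩo.mem_nhds hz)) v
  obtain ⟨B, hB0, hB⟩ := dT_bdd
  obtain ⟨K1, hK1⟩ := hK.exists_bound_of_continuousOn
    (f := fun z => dz (fun y => (ρ y : ℂ)) z v * g z) (fun z hz =>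
      ((dz_contAt hρc.contDiffAt v).mul (hg z hz).continuousAt).continuousWithinAt)
  obtain ⟨K2, hK2⟩ := hK.exists_bound_of_continuousOn
    (f := fun z => (ρ z : ℂ) * dz g z v) (fun z hz =>
      (hρc.continuous.continuousAt.mul (dz_contAt (hg z hz) v)).continuousWithinAt)
  have hpos : ∀ k : ℕ, (0 : ℝ) < 1 / ((k : ℝ) + 1) := fun k => by positivity
  have lim := tendsto_integral_of_dominated_convergence (μ := volume.restrict Ω)
    (F := fun (k : ℕ) z => dz (U ρ g h (1 / ((k : ℝ) + 1))) z v)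
    (f := fun z => (dz (fun y => (ρ y : ℂ)) z v * g z + (ρ z : ℂ) * dz g z v) *
      (starRingEnd ℂ) (h z)) (fun z => (B * K1 + K2) * ‖h z‖)
    (fun k => (continuous_iff_continuousAt.2 fun z =>
      dz_contAt (hU1 _ (hpos k)).contDiffAt v).aestronglyMeasurable)
    (hi.norm.const_mul _)
    (fun k => by
      refine (ae_restrict_iff' hΩo.measurableSet).2 (Eventually.of_forall fun z hz => ?_)
      rw [hform _ (hpos k) z hz, norm_mul, Complex.norm_conj]
      refine mul_le_mul_of_nonneg_right ((norm_add_le _ _).trans (add_le_add ?_ ?_))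
        (norm_nonneg _)
      · rw [norm_mul, Complex.norm_real, Real.norm_eq_abs]
        exact mul_le_mul (hB _) (hK1 z (subset_closure hz)) (norm_nonneg _) hB0
      · refine le_trans ?_ (hK2 z (subset_closure hz))
        rw [norm_mul, norm_mul, Complex.norm_real, Complex.norm_real, Real.norm_eq_abs,
          Real.norm_eq_abs]
        refine mul_le_mul_of_nonneg_right ?_ (norm_nonneg _)
        rw [abs_mul, abs_of_pos (hpos k)]
        have := T_abs (ρ z / (1 / ((k : ℝ) + 1)))
        rw [abs_div, abs_of_pos (hpos k), le_div_iff₀ (hpos k)] at this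
        linarith)
    (by
      refine (ae_restrict_iff' hΩo.measurableSet).2 (Eventually.of_forall fun z hz => ?_)
      have hz' : ρ z < 0 := hz
      apply tendsto_const_nhds.congr'
      have t1 := (tendsto_one_div_add_atTop_nhds_zero_nat (𝕜 := ℝ)).eventually
        (Iio_mem_nhds (show (0 : ℝ) < -ρ z / 2 by linarith))
      filter_upwards [t1] with k hk
      have hk' : 1 / ((k : ℝ) + 1) < -ρ z / 2 := hk
      have a1 : ρ z / (1 / ((k : ℝ) + 1)) < -2 := by
        rw [div_lt_iff₀ (hpos k)]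
        linarith
      rw [hform _ (hpos k) z hz, dT_one a1, T_one a1.le, mul_div_cancel₀ _ (hpos k).ne']
      simp)
  simp only [fun k => hint _ (hpos k)] at lim
  exact (tendsto_nhds_unique tendsto_const_nhds lim).symm

end Pool.Agent.H809Z.Ball
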